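import Pool.Agent.Helper50.Gap.Final

/-!
# Finitely generated invariant subgroups: descent to non finitely generated normal subgroups
-/

namespace Pool.Agent.Helper11.Gap3

open Subgroup Pool.Agent.Helper2.Gap Pool.Agent.Helper50.Gap Pointwise Filter Topology

variable {G : Type*} [Group G]

/-! ### Conjugation of `NN` when the big subgroup is only normalised by the element -/

theorem mem_NN_conj_nrm {N : Subgroup G} {x a g : G} (hg : g ∈ normalizer (N : Set G))
    (ha : a ∈ NN N x) : g * a * g⁻¹ ∈ NN N (g * x * g⁻¹) := by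
  obtain ⟨H, hH, haH⟩ := ha
  refine ⟨H.map (MulAut.conj g).toMonoidHom, ⟨?_, ?_, ?_⟩, ⟨a, haH, rfl⟩⟩
  · obtain ⟨T, rfl⟩ := hH.fg
    classical
    refine ⟨T.image (MulAut.conj g).toMonoidHom, ?_⟩
    rw [Finset.coe_image, ← MonoidHom.map_closure]
  · rintro _ ⟨h, hh, rfl⟩
    exact nrm_conj hg (hH.le hh)
  · rw [mem_normalizer_iff_map_conj_eq]
    have h1 := mem_normalizer_iff_map_conj_eq.1 hH.nrm
    conv_rhs => rw [← h1]
    rw [Subgroup.map_map, Subgroup.map_map]
    congr 1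
    ext b
    simp [mul_assoc]

theorem nrm_of_mem' {N : Subgroup G} {x g a : G} (hg : g ∈ normalizer (N : Set G))
    (ha : a ∈ NN N x) (h : g * x * g⁻¹ = a * x) : g ∈ normalizer (NN N x : Set G) := by
  have key : ∀ b, b ∈ NN N x → g * b * g⁻¹ ∈ NN N x := by
    intro b hb
    have h1 := mem_NN_conj_nrm hg hb
    rwa [h, NN_mul ha] at h1
  apply nrm_of_le key
  intro b hb
  have h2 : b ∈ NN N (g * x * g⁻¹) := by rw [h, NN_mul ha]; exact hb
  have h1 := mem_NN_conj_nrm (Subgroup.inv_mem _ hg) h2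
  have e : g⁻¹ * (g * x * g⁻¹) * g⁻¹⁻¹ = x := by group
  rw [e, inv_inv] at h1
  exact h1

theorem self_nrm' {N : Subgroup G} {x : G} (hx : x ∈ normalizer (N : Set G)) :
    x ∈ normalizer (NN N x : Set G) :=
  nrm_of_mem' (a := 1) hx (Subgroup.one_mem _) (by group)

/-! ### Finite generation of a product with a cyclic group -/

theorem mem_sup_zpowers {M : Subgroup G} {z : G} (hz : z ∈ normalizer (M : Set G)) {g : G}
    (hg : g ∈ M ⊔ zpowers z) : ∃ i : ℤ, g * (z ^ i)⁻¹ ∈ M := by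
  have hzi : ∀ i : ℤ, z ^ i ∈ normalizer (M : Set G) := fun i => Subgroup.zpow_mem _ hz i
  let E : Subgroup G :=
    { carrier := {g | ∃ i : ℤ, g * (z ^ i)⁻¹ ∈ M}
      one_mem' := ⟨0, by simp⟩
      mul_mem' := by
        rintro a b ⟨i, hi⟩ ⟨j, hj⟩
        refine ⟨i + j, ?_⟩
        have e : a * b * (z ^ (i + j))⁻¹ =
            (a * (z ^ i)⁻¹) * (z ^ i * (b * (z ^ j)⁻¹) * (z ^ i)⁻¹) := by
          rw [zpow_add]; group
        rw [e]
        exact M.mul_mem hi (nrm_conj (hzi i) hj)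
      inv_mem' := by
        rintro a ⟨i, hi⟩
        refine ⟨-i, ?_⟩
        have e : a⁻¹ * (z ^ (-i))⁻¹ = ((z ^ i)⁻¹ * (a * (z ^ i)⁻¹)⁻¹ * z ^ i) := by
          rw [zpow_neg]; group
        rw [e]
        exact nrm_conj' (hzi i) (M.inv_mem hi) }
  have hle : M ⊔ zpowers z ≤ E := by
    apply sup_le
    · intro a ha
      exact ⟨0, by simpa using ha⟩
    · rw [zpowers_le]
      exact ⟨1, by simp⟩
  exact hle hg

/-- **One step.** If `M ⟨z⟩` is finitely generated and every finite subset of `M` lies in a finitely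
generated subgroup of `M` normalised by `z`, then `M` is finitely generated. -/
theorem one_step {M : Subgroup G} {z : G} (hfg : (M ⊔ zpowers z).FG)
    (hz : z ∈ normalizer (M : Set G)) (hNN : NN M z = M) : M.FG := by
  obtain ⟨T, hT⟩ := hfg
  have hex : ∀ t : G, ∃ i : ℤ, t ∈ T → t * (z ^ i)⁻¹ ∈ M := by
    intro t
    by_cases ht : t ∈ T
    · obtain ⟨i, hi⟩ := mem_sup_zpowers hz (by rw [← hT]; exact subset_closure ht : t ∈ _)
      exact ⟨i, fun _ => hi⟩
    · exact ⟨0, fun h => absurd h ht⟩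
  choose e he using hex
  classical
  obtain ⟨L, hL, hTL⟩ := exists_inv_of_finset (N := M) (x := z)
    (T.image (fun t => t * (z ^ (e t))⁻¹)) (by
      intro t ht
      obtain ⟨s, hs, rfl⟩ := Finset.mem_image.1 ht
      rw [hNN]
      exact he s hs)
  have hle : M ⊔ zpowers z ≤ L ⊔ zpowers z := by
    rw [← hT, closure_le]
    intro t ht
    have h1 : t * (z ^ (e t))⁻¹ ∈ L ⊔ zpowers z :=
      le_sup_left (a := L) (hTL _ (Finset.mem_image_of_mem _ ht))
    have h2 : z ^ (e t) ∈ L ⊔ zpowers z := le_sup_right (a := L) ⟨e t, rfl⟩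
    have := Subgroup.mul_mem _ h1 h2
    rwa [inv_mul_cancel_right] at this
  have hfg2 : (M ⊓ zpowers z).FG := by
    apply fg_of_cyclic (L := ⊥) (z := z)
    · rw [mem_normalizer_iff]
      intro h
      simp
    · intro K hK
      rw [le_bot_iff.1 hK]
      exact Subgroup.FG.bot
    · rintro g ⟨_, i, hi⟩
      refine ⟨i, ?_⟩
      rw [← hi]
      simp
  have hM : M = L ⊔ (M ⊓ zpowers z) := by
    apply le_antisymm
    · intro m hm
      obtain ⟨i, hi⟩ := mem_sup_zpowers hL.nrm (hle (le_sup_left (a := M) hm))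
      have h3 : z ^ i ∈ M ⊓ zpowers z := by
        refine ⟨?_, i, rfl⟩
        have := M.mul_mem (M.inv_mem (hL.le hi)) hm
        have e : (m * (z ^ i)⁻¹)⁻¹ * m = z ^ i := by group
        rwa [e] at this
      have := Subgroup.mul_mem _ (le_sup_left (a := L) (b := M ⊓ zpowers z) hi)
        (le_sup_right (a := L) (b := M ⊓ zpowers z) h3)
      rwa [inv_mul_cancel_right] at this
    · exact sup_le hL.le inf_le_left
  rw [hM]
  exact hL.fg.sup hfg2

/-! ### Pairs of words -/

theorem FF_le' {N : Subgroup G} {x a : G} (hx : x ∈ normalizer (N : Set G)) (ha : a ∈ N)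
    (n : ℕ) : FF x a n ≤ N := by
  apply (closure_le _).2
  rintro _ ⟨i, _, rfl⟩
  exact nrm_conj (Subgroup.pow_mem _ hx i) ha

theorem inv_cj_mem {x a : G} {m : ℕ}
    (hm : cj x⁻¹ (x⁻¹ * a⁻¹ * x) m ∈ FF x⁻¹ (x⁻¹ * a⁻¹ * x) m) : x⁻¹ * a * x ∈ FF x a m := by
  have hle : FF x⁻¹ (x⁻¹ * a⁻¹ * x) m ≤ (FF x a m).comap (MulAut.conj (x ^ m)).toMonoidHom := by
    apply (closure_le _).2
    rintro _ ⟨k, hk, rfl⟩
    rw [SetLike.mem_coe, Subgroup.mem_comap]
    have hk' : k < m := hk
    obtain ⟨j, rfl⟩ : ∃ j, m = j + 1 + k := ⟨m - k - 1, by omega⟩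
    change x ^ (j + 1 + k) * cj x⁻¹ (x⁻¹ * a⁻¹ * x) k * (x ^ (j + 1 + k))⁻¹ ∈ _
    have e : x ^ (j + 1 + k) * cj x⁻¹ (x⁻¹ * a⁻¹ * x) k * (x ^ (j + 1 + k))⁻¹ =
        (cj x a j)⁻¹ := by
      rw [cj, cj, pow_add, pow_add, pow_one, inv_pow]
      group
    rw [e]
    exact Subgroup.inv_mem _ (cj_mem_FF x a (by omega))
  have h1 := hle hm
  rw [Subgroup.mem_comap] at h1
  change x ^ m * cj x⁻¹ (x⁻¹ * a⁻¹ * x) m * (x ^ m)⁻¹ ∈ _ at h1
  have e : x ^ m * cj x⁻¹ (x⁻¹ * a⁻¹ * x) m * (x ^ m)⁻¹ = (x⁻¹ * a * x)⁻¹ := by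
    rw [cj, inv_pow]
    group
  rw [e] at h1
  have := Subgroup.inv_mem _ h1
  rwa [inv_inv] at this

theorem mem_NN_of_rel {N : Subgroup G} {x a : G} (hx : x ∈ normalizer (N : Set G)) (ha : a ∈ N)
    {n m : ℕ} (hn : cj x a n ∈ FF x a n)
    (hm : cj x⁻¹ (x⁻¹ * a⁻¹ * x) m ∈ FF x⁻¹ (x⁻¹ * a⁻¹ * x) m) : a ∈ NN N x := by
  set L := max n m with hL
  have hall : ∀ i, cj x a i ∈ FF x a L := fun i =>
    FF_mono x a (le_max_left n m) (cj_all hn i)
  have hneg : x⁻¹ * a * x ∈ FF x a L := FF_mono x a (le_max_right n m) (inv_cj_mem hm)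
  have h0 : a ∈ FF x a L := by
    have := hall 0
    simpa [cj] using this
  refine ⟨FF x a L, ⟨FF_fg _ _ _, FF_le' hx ha _, ?_⟩, h0⟩
  apply nrm_of_le
  · intro g hg
    have hle : FF x a L ≤ (FF x a L).comap (MulAut.conj x).toMonoidHom := by
      apply (closure_le _).2
      rintro _ ⟨i, _, rfl⟩
      have := hall (i + 1)
      rw [SetLike.mem_coe, Subgroup.mem_comap]
      change x * cj x a i * x⁻¹ ∈ _
      have e : x * cj x a i * x⁻¹ = cj x a (i + 1) := by
        simp only [cj, pow_succ']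
        group
      rw [e]
      exact this
    exact hle hg
  · intro g hg
    have hle : FF x a L ≤ (FF x a L).comap (MulAut.conj x⁻¹).toMonoidHom := by
      apply (closure_le _).2
      rintro _ ⟨i, _, rfl⟩
      rw [SetLike.mem_coe, Subgroup.mem_comap]
      change x⁻¹ * cj x a i * x⁻¹⁻¹ ∈ _
      rcases i with _ | i
      · have e : x⁻¹ * cj x a 0 * x⁻¹⁻¹ = x⁻¹ * a * x := by simp [cj]
        rw [e]
        exact hneg
      · have e : x⁻¹ * cj x a (i + 1) * x⁻¹⁻¹ = cj x a i := by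
          simp only [cj, pow_succ']
          group
        rw [e]
        exact hall i
    have := hle hg
    rw [Subgroup.mem_comap] at this
    change x⁻¹ * g * x⁻¹⁻¹ ∈ _ at this
    rwa [inv_inv] at this

theorem grow' [DecidableEq G] {S : Finset G} {ρ : ℝ}
    (hρ : Tendsto (fun n : ℕ => Real.log ((S ^ n).card : ℝ) / n) atTop (𝓝 ρ)) {l : ℕ} (hl : 0 < l)
    (hlt : ρ < Real.log 2 / l) {N : Subgroup G} {x a : G} (hxN : x ∈ normalizer (N : Set G))
    (hx : x ∈ S ^ l) (hax : a * x ∈ S ^ l) (ha : a ∈ N) : a ∈ NN N x := by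
  have h0 : ¬ ∀ n : ℕ, 2 ^ n ≤ ((S ^ l) ^ n).card := fun h =>
    absurd (rate_ge S ρ hρ l hl h) (not_le.2 hlt)
  have h1 : ∃ n, cj x a n ∈ FF x a n := by
    by_contra hcon
    push Not at hcon
    exact h0 (two_pow_le_card x a (S ^ l) hx hax hcon)
  have h2 : ∃ m, cj x⁻¹ (x⁻¹ * a⁻¹ * x) m ∈ FF x⁻¹ (x⁻¹ * a⁻¹ * x) m := by
    by_contra hcon
    push Not at hcon
    apply h0
    intro n
    have h3 := two_pow_le_card x⁻¹ (x⁻¹ * a⁻¹ * x) (S ^ l)⁻¹ (Finset.inv_mem_inv hx) (by
      have e : x⁻¹ * a⁻¹ * x * x⁻¹ = (a * x)⁻¹ := by group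
      rw [e]
      exact Finset.inv_mem_inv hax) hcon n
    rwa [inv_pow, Finset.card_inv] at h3
  obtain ⟨n, hn⟩ := h1
  obtain ⟨m, hm⟩ := h2
  exact mem_NN_of_rel hxN ha hn hm

/-- If `y` is such that `[x, y] ∈ P = NN P x`, and `P` is the smallest subgroup containing `n`
normalised by `x` and `y`, then `P ⟨y⟩` is finitely generated. -/
theorem sup_fg {P : Subgroup G} {x y n : G} (hx : NN P x = P) (hn : n ∈ P)
    (hxy : x * y * x⁻¹ * y⁻¹ ∈ P)
    (hmin : ∀ E : Subgroup G, n ∈ E → x ∈ normalizer (E : Set G) → y ∈ normalizer (E : Set G) →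
      P ≤ E) : (P ⊔ zpowers y).FG := by
  classical
  obtain ⟨D, hD, hTD⟩ := exists_inv_of_finset (N := P) (x := x) {n, x * y * x⁻¹ * y⁻¹} (by
    intro t ht
    rw [hx]
    rcases Finset.mem_insert.1 ht with rfl | ht
    · exact hn
    · rw [Finset.mem_singleton.1 ht]; exact hxy)
  have hnD : n ∈ D := hTD n (by simp)
  have hcD : x * y * x⁻¹ * y⁻¹ ∈ D := hTD _ (by simp)
  have hyE : y ∈ D ⊔ zpowers y := le_sup_right (a := D) (mem_zpowers y)
  have hDE : ∀ d ∈ D, d ∈ D ⊔ zpowers y := fun d hd => le_sup_left (a := D) hd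
  have hxE : x ∈ normalizer ((D ⊔ zpowers y : Subgroup G) : Set G) := by
    apply nrm_of_le
    · have hle : D ⊔ zpowers y ≤ (D ⊔ zpowers y).comap (MulAut.conj x).toMonoidHom := by
        apply sup_le
        · intro g hg
          exact hDE _ (nrm_conj hD.nrm hg)
        · rw [zpowers_le, Subgroup.mem_comap]
          change x * y * x⁻¹ ∈ _
          have e : x * y * x⁻¹ = (x * y * x⁻¹ * y⁻¹) * y := by group
          rw [e]
          exact Subgroup.mul_mem _ (hDE _ hcD) hyE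
      exact fun g hg => hle hg
    · have hle : D ⊔ zpowers y ≤ (D ⊔ zpowers y).comap (MulAut.conj x⁻¹).toMonoidHom := by
        apply sup_le
        · intro g hg
          have := nrm_conj' hD.nrm hg
          rw [Subgroup.mem_comap]
          change x⁻¹ * g * x⁻¹⁻¹ ∈ _
          rw [inv_inv]
          exact hDE _ this
        · rw [zpowers_le, Subgroup.mem_comap]
          change x⁻¹ * y * x⁻¹⁻¹ ∈ _
          have e : x⁻¹ * y * x⁻¹⁻¹ = (x⁻¹ * (x * y * x⁻¹ * y⁻¹)⁻¹ * x) * y := by group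
          rw [e]
          exact Subgroup.mul_mem _ (hDE _ (nrm_conj' hD.nrm (Subgroup.inv_mem _ hcD))) hyE
      intro g hg
      have := hle hg
      rw [Subgroup.mem_comap] at this
      change x⁻¹ * g * x⁻¹⁻¹ ∈ _ at this
      rwa [inv_inv] at this
  have hPE : P ≤ D ⊔ zpowers y := hmin _ (hDE _ hnD) hxE (le_normalizer hyE)
  have heq : P ⊔ zpowers y = D ⊔ zpowers y := by
    apply le_antisymm
    · exact sup_le hPE le_sup_right
    · exact sup_le_sup_right hD.le _
  rw [heq]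
  exact hD.fg.sup ⟨{y}, by rw [Finset.coe_singleton, zpowers_eq_closure]⟩

/-- The main lemma on pairs, without any hypothesis on `N`. -/
theorem pair [DecidableEq G] {S : Finset G} {ρ : ℝ}
    (hρ : Tendsto (fun n : ℕ => Real.log ((S ^ n).card : ℝ) / n) atTop (𝓝 ρ)) {l : ℕ} (hl : 0 < l)
    (hlt : ρ < Real.log 2 / (3 * l : ℕ)) {N : Subgroup G} (hN : N.Normal) {a b : G}
    (ha : a ∈ S ^ l) (hb : b ∈ S ^ l) (hn : b * a * b⁻¹ * a⁻¹ ∈ N) :
    ∃ L, Inv N a L ∧ Inv N b L ∧ b * a * b⁻¹ * a⁻¹ ∈ L := by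
  set n := b * a * b⁻¹ * a⁻¹ with hndef
  have hlog : 0 < Real.log 2 := Real.log_pos (by norm_num)
  have hl2 : ρ < Real.log 2 / (2 * l : ℕ) := by
    refine hlt.trans_le ?_
    apply div_le_div_of_nonneg_left hlog.le
    · have : 0 < 2 * l := by omega
      exact_mod_cast this
    · have : 2 * l ≤ 3 * l := by omega
      exact_mod_cast this
  have hpow2 : ∀ {u v : G}, u ∈ S ^ l → v ∈ S ^ l → u * v ∈ S ^ (2 * l) := by
    intro u v hu hv
    rw [two_mul, pow_add]
    exact Finset.mul_mem_mul hu hv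
  have hpow3 : ∀ {u v w : G}, u ∈ S ^ l → v ∈ S ^ l → w ∈ S ^ l → u * v * w ∈ S ^ (3 * l) := by
    intro u v w hu hv hw
    have : 3 * l = 2 * l + l := by ring
    rw [this, pow_add]
    exact Finset.mul_mem_mul (hpow2 hu hv) hw
  -- the normal closure of `n` in `⟨a, b⟩`
  set K : Subgroup G := closure {a, b} with hK
  have haK : a ∈ K := subset_closure (by simp)
  have hbK : b ∈ K := subset_closure (by simp)
  set P : Subgroup G := closure {g | ∃ k ∈ K, g = k * n * k⁻¹} with hP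
  have hnP : n ∈ P := subset_closure ⟨1, K.one_mem, by simp⟩
  have hKP : ∀ k ∈ K, k ∈ normalizer (P : Set G) := by
    have h1 : ∀ k ∈ K, ∀ g ∈ P, k * g * k⁻¹ ∈ P := by
      intro k hk
      have hle : P ≤ P.comap (MulAut.conj k).toMonoidHom := by
        rw [hP, closure_le]
        rintro _ ⟨j, hj, rfl⟩
        rw [SetLike.mem_coe, Subgroup.mem_comap]
        change k * (j * n * j⁻¹) * k⁻¹ ∈ _
        refine subset_closure ⟨k * j, K.mul_mem hk hj, by group⟩
      exact fun g hg => hle hg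
    intro k hk
    apply nrm_of_le (h1 k hk)
    intro g hg
    have := h1 k⁻¹ (K.inv_mem hk) g hg
    rwa [inv_inv] at this
  have hPmin : ∀ E : Subgroup G, n ∈ E → (∀ k ∈ K, k ∈ normalizer (E : Set G)) → P ≤ E := by
    intro E hnE hKE
    rw [hP, closure_le]
    rintro _ ⟨k, hk, rfl⟩
    exact nrm_conj (hKE k hk) hnE
  have hKmin : ∀ E : Subgroup G, a ∈ normalizer (E : Set G) → b ∈ normalizer (E : Set G) →
      ∀ k ∈ K, k ∈ normalizer (E : Set G) := by
    intro E h1 h2
    have : K ≤ normalizer (E : Set G) := by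
      rw [hK, closure_le]
      rintro _ (rfl | rfl)
      · exact h1
      · exact h2
    exact this
  have hPN : P ≤ N := hPmin N hn (by
    intro k _
    exact nrm_of_le (fun h hh => hN.conj_mem h hh k) (fun h hh => by
      have := hN.conj_mem h hh k⁻¹
      rwa [inv_inv] at this))
  have haP := hKP a haK
  have hbP := hKP b hbK
  have habP : a * b ∈ normalizer (P : Set G) := Subgroup.mul_mem _ haP hbP
  have haabP : a * a * b ∈ normalizer (P : Set G) := Subgroup.mul_mem _ (Subgroup.mul_mem _ haP haP) hbP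
  -- the pair `ab`, `ba`
  have hba : n * (a * b) = b * a := by rw [hndef]; group
  have hnx : n ∈ NN P (a * b) := by
    apply grow' hρ (by omega) hl2 habP (hpow2 ha hb) _ hnP
    rw [hba]; exact hpow2 hb ha
  -- the pair `aab`, `aba`
  have haba : (a * n * a⁻¹) * (a * a * b) = a * b * a := by rw [hndef]; group
  have hny : a * n * a⁻¹ ∈ NN P (a * a * b) := by
    apply grow' hρ (by omega) hlt haabP (hpow3 ha ha hb) _ (nrm_conj haP hnP)
    rw [haba]; exact hpow3 ha hb ha
  -- normalisers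
  have hbx : b ∈ normalizer (NN P (a * b) : Set G) := by
    apply nrm_of_mem' hbP hnx
    rw [hba]; group
  have hxx : a * b ∈ normalizer (NN P (a * b) : Set G) := self_nrm' habP
  have hax : a ∈ normalizer (NN P (a * b) : Set G) := by
    have := Subgroup.mul_mem _ hxx (Subgroup.inv_mem _ hbx)
    rwa [mul_inv_cancel_right] at this
  have hay : a⁻¹ ∈ normalizer (NN P (a * a * b) : Set G) := by
    apply nrm_of_mem' (Subgroup.inv_mem _ haP) hny
    rw [haba]; group
  have hay' : a ∈ normalizer (NN P (a * a * b) : Set G) := by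
    have := Subgroup.inv_mem _ hay
    rwa [inv_inv] at this
  have hby : b ∈ normalizer (NN P (a * a * b) : Set G) := by
    have h1 := Subgroup.mul_mem _ (Subgroup.inv_mem _ (Subgroup.mul_mem _ hay' hay'))
      (self_nrm' haabP)
    have e : (a * a)⁻¹ * (a * a * b) = b := by group
    rwa [e] at h1
  have hny2 : n ∈ NN P (a * a * b) := by
    have := nrm_conj' hay' hny
    have e : a⁻¹ * (a * n * a⁻¹) * a = n := by group
    rwa [e] at this
  have hNNx : NN P (a * b) = P :=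
    le_antisymm (NN_le _ _) (hPmin _ hnx (hKmin _ hax hbx))
  have hNNy : NN P (a * a * b) = P :=
    le_antisymm (NN_le _ _) (hPmin _ hny2 (hKmin _ hay' hby))
  -- the two descents
  have hd : (a * b) * (a * a * b) * (a * b)⁻¹ * (a * a * b)⁻¹ ∈ P := by
    have e : (a * b) * (a * a * b) * (a * b)⁻¹ * (a * a * b)⁻¹ = a * n * a⁻¹ := by
      rw [hndef]; group
    rw [e]
    exact nrm_conj haP hnP
  have hfg1 : (P ⊔ zpowers (a * a * b)).FG := by
    apply sup_fg hNNx hnP hd
    intro E hnE h1 h2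
    have haE : a ∈ normalizer (E : Set G) := by
      have h3 := Subgroup.mul_mem _ h2 (Subgroup.inv_mem _ h1)
      have e : a * a * b * (a * b)⁻¹ = a := by group
      rwa [e] at h3
    have hbE : b ∈ normalizer (E : Set G) := by
      have h3 := Subgroup.mul_mem _ (Subgroup.inv_mem _ haE) h1
      rwa [inv_mul_cancel_left] at h3
    exact hPmin E hnE (hKmin E haE hbE)
  have hfg : P.FG := one_step hfg1 haabP hNNy
  exact ⟨P, ⟨hfg, hPN, haP⟩, ⟨hfg, hPN, hbP⟩, hnP⟩

/-! ### A maximal non finitely generated normal subgroup -/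

theorem exists_max {N : Subgroup G} (hN : N.Normal) (hfg : ¬ N.FG) :
    ∃ M : Subgroup G, N ≤ M ∧ M.Normal ∧ ¬ M.FG ∧
      ∀ M' : Subgroup G, M'.Normal → ¬ M'.FG → M ≤ M' → M' ≤ M := by
  obtain ⟨M, hNM, hM⟩ := zorn_le_nonempty₀ {M : Subgroup G | M.Normal ∧ ¬ M.FG} (by
    intro C hC hch N₀ hN₀
    refine ⟨sSup C, ⟨?_, ?_⟩, fun K hK => le_sSup hK⟩
    · refine ⟨?_⟩
      intro a ha g
      rw [mem_sSup_of_directedOn ⟨N₀, hN₀⟩ hch.directedOn] at ha ⊢
      obtain ⟨K, hK, haK⟩ := ha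
      exact ⟨K, hK, (hC hK).1.conj_mem a haK g⟩
    · rintro ⟨T, hT⟩
      have hfin : ∀ T : Finset G, (∀ t ∈ T, t ∈ sSup C) → ∃ P ∈ C, ∀ t ∈ T, t ∈ P := by
        classical
        intro T
        induction T using Finset.induction_on with
        | empty => exact fun _ => ⟨N₀, hN₀, by simp⟩
        | insert a T _ ih =>
          intro h
          obtain ⟨P, hP, hTP⟩ := ih (fun t ht => h t (Finset.mem_insert_of_mem ht))
          have ha := h a (Finset.mem_insert_self _ _)
          rw [mem_sSup_of_directedOn ⟨N₀, hN₀⟩ hch.directedOn] at ha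
          obtain ⟨P', hP', haP'⟩ := ha
          obtain ⟨P'', hP'', h1, h2⟩ := hch.directedOn P hP P' hP'
          refine ⟨P'', hP'', ?_⟩
          intro t ht
          rcases Finset.mem_insert.1 ht with rfl | ht
          · exact h2 haP'
          · exact h1 (hTP t ht)
      obtain ⟨P, hP, hTP⟩ := hfin T (fun t ht => by rw [← hT]; exact subset_closure ht)
      have h1 : sSup C ≤ P := by
        rw [← hT, closure_le]
        exact hTP
      have h2 : P = sSup C := le_antisymm (le_sSup hP) h1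
      exact (hC hP).2 (by rw [h2]; exact ⟨T, hT⟩)) N ⟨hN, hfg⟩
  exact ⟨M, hNM, hM.prop.1, hM.prop.2, fun M' h1 h2 h3 => hM.le_of_ge ⟨h1, h2⟩ h3⟩

/-- Consequence for a maximal non finitely generated normal subgroup. -/
theorem final {S : Set G} (hS : closure S = ⊤) {M : Subgroup G} (hM : M.Normal) (hfg : ¬ M.FG)
    (hmax : ∀ M' : Subgroup G, M'.Normal → ¬ M'.FG → M ≤ M' → M' ≤ M) {z : G} (hz : z ∉ M)
    (h : ∀ w ∈ S, w ∈ normalizer (NN M z : Set G) ∧ w * z * w⁻¹ * z⁻¹ ∈ NN M z) : False := by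
  have hn : ∀ g : G, g ∈ normalizer (NN M z : Set G) := by
    have hle : (⊤ : Subgroup G) ≤ normalizer (NN M z : Set G) := by
      rw [← hS, closure_le]
      exact fun w hw => (h w hw).1
    exact fun g => hle (mem_top g)
  have hnor : (NN M z).Normal := ⟨fun a ha g => nrm_conj (hn g) ha⟩
  have hcen : ∀ g : G, g * z * g⁻¹ * z⁻¹ ∈ NN M z := by
    let C : Subgroup G :=
      { carrier := {g | g * z * g⁻¹ * z⁻¹ ∈ NN M z}
        one_mem' := by simp
        mul_mem' := by
          intro a b ha hb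
          have e : (a * b) * z * (a * b)⁻¹ * z⁻¹ =
              (a * (b * z * b⁻¹ * z⁻¹) * a⁻¹) * (a * z * a⁻¹ * z⁻¹) := by group
          change (a * b) * z * (a * b)⁻¹ * z⁻¹ ∈ NN M z
          rw [e]
          exact Subgroup.mul_mem _ (hnor.conj_mem _ hb a) ha
        inv_mem' := by
          intro a ha
          have e : a⁻¹ * z * a⁻¹⁻¹ * z⁻¹ = a⁻¹ * (a * z * a⁻¹ * z⁻¹)⁻¹ * a⁻¹⁻¹ := by group
          change a⁻¹ * z * a⁻¹⁻¹ * z⁻¹ ∈ NN M z
          rw [e]
          exact hnor.conj_mem _ (Subgroup.inv_mem _ ha) a⁻¹ }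
    have hle : (⊤ : Subgroup G) ≤ C := by
      rw [← hS, closure_le]
      exact fun w hw => (h w hw).2
    exact fun g => hle (mem_top g)
  have hNN : NN M z = M := NN_eq (fun x _ => hcen x)
  rw [hNN] at hcen
  have hnor' : (M ⊔ zpowers z).Normal := by
    refine ⟨fun a ha g => ?_⟩
    have hle : M ⊔ zpowers z ≤ (M ⊔ zpowers z).comap (MulAut.conj g).toMonoidHom := by
      apply sup_le
      · intro m hm
        exact le_sup_left (a := M) (hM.conj_mem m hm g)
      · rw [zpowers_le, Subgroup.mem_comap]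
        change g * z * g⁻¹ ∈ _
        have e : g * z * g⁻¹ = (g * z * g⁻¹ * z⁻¹) * z := by group
        rw [e]
        exact Subgroup.mul_mem _ (le_sup_left (a := M) (hcen g))
          (le_sup_right (a := M) (mem_zpowers z))
    exact hle ha
  by_cases hc : (M ⊔ zpowers z).FG
  · apply hfg
    refine one_step hc ?_ hNN
    exact nrm_of_le (fun h hh => hM.conj_mem h hh z) (fun h hh => by
      have := hM.conj_mem h hh z⁻¹
      rwa [inv_inv] at this)
  · exact hz (hmax _ hnor' hc le_sup_left (le_sup_right (a := M) (mem_zpowers z)))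

end Pool.Agent.Helper11.Gap3
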