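import Pool.Agent.Helper11.Gap3.Basic

/-!
# The growth gap for groups with a non finitely generated normal subgroup and nilpotent quotient
-/

namespace Pool.Agent.Helper11.Gap3

open Subgroup Pool.Agent.Helper2.Gap Pointwise Filter Topology

open Pool.Agent.Helper50.Gap (Inv NN PairK nrm_conj nrm_conj' nrm_of_mem pair_succ Inv.le_NN)

variable {G : Type*} [Group G]

theorem pair' [DecidableEq G] {S : Finset G} {ρ : ℝ}
    (hρ : Tendsto (fun n : ℕ => Real.log ((S ^ n).card : ℝ) / n) atTop (𝓝 ρ)) {c : ℕ}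
    (hlt : ρ < Real.log 2 / 3 ^ c) {N : Subgroup G} (hN : N.Normal) {l : ℕ}
    (hl : 0 < l) (hlc : 3 * l ≤ 3 ^ c) {a b : G}
    (ha : a ∈ S ^ l) (hb : b ∈ S ^ l) (hn : b * a * b⁻¹ * a⁻¹ ∈ N) :
    ∃ L, Inv N a L ∧ Inv N b L ∧ b * a * b⁻¹ * a⁻¹ ∈ L := by
  refine pair hρ hl (hlt.trans_le ?_) hN ha hb hn
  have hlog : 0 < Real.log 2 := Real.log_pos (by norm_num)
  apply div_le_div_of_nonneg_left hlog.le
  · have : 0 < 3 * l := by omega
    exact_mod_cast this
  · exact_mod_cast hlc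

/-- The case of a pair whose quotient is central modulo `M`. -/
theorem central_case [DecidableEq G] {S : Finset G} (hS : closure (S : Set G) = ⊤) {ρ : ℝ}
    (hρ : Tendsto (fun n : ℕ => Real.log ((S ^ n).card : ℝ) / n) atTop (𝓝 ρ)) {c : ℕ}
    (hlt : ρ < Real.log 2 / 3 ^ c) {M : Subgroup G} (hM : M.Normal) (hfg : ¬ M.FG)
    (hmax : ∀ M' : Subgroup G, M'.Normal → ¬ M'.FG → M ≤ M' → M' ≤ M) {k l : ℕ}
    (hk : k + 1 ≤ c) {p q : G} (h : PairK S M k l p q)
    (hc : ∀ u ∈ S, Commute (QuotientGroup.mk' M (p⁻¹ * q)) (QuotientGroup.mk' M u)) : False := by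
  set z := p⁻¹ * q with hz
  have hlen : l + 1 ≤ 3 ^ k := h.len
  have h3 : 3 * (l + 1) ≤ 3 ^ c :=
    calc 3 * (l + 1) ≤ 3 * 3 ^ k := Nat.mul_le_mul_left _ hlen
      _ = 3 ^ (k + 1) := by rw [pow_succ']
      _ ≤ 3 ^ c := Nat.pow_le_pow_right (by norm_num) hk
  have hcG : ∀ g : G, Commute (QuotientGroup.mk' M z) (QuotientGroup.mk' M g) := by
    have hle : (⊤ : Subgroup G) ≤ (centralizer {QuotientGroup.mk' M z}).comap
        (QuotientGroup.mk' M) := by
      rw [← hS, closure_le]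
      intro u hu
      rw [SetLike.mem_coe, Subgroup.mem_comap, mem_centralizer_iff]
      intro y hy
      rw [Set.mem_singleton_iff] at hy
      rw [hy]
      exact hc u hu
    intro g
    have := hle (mem_top g)
    rw [Subgroup.mem_comap, mem_centralizer_iff] at this
    exact this _ rfl
  have key : ∀ {a b : G} {l' : ℕ}, 0 < l' → 3 * l' ≤ 3 ^ c → a ∈ S ^ l' → b ∈ S ^ l' →
      b = a * z → a ∈ normalizer (NN M z : Set G) ∧ a * z * a⁻¹ * z⁻¹ ∈ NN M z := by
    intro a b l' hl' hl'c ha hb hbz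
    have hn : b * a * b⁻¹ * a⁻¹ ∈ M := by
      have e : b * a * b⁻¹ * a⁻¹ = a * (z * a * z⁻¹ * a⁻¹) * a⁻¹ := by rw [hbz]; group
      rw [e]
      apply hM.conj_mem
      rw [← QuotientGroup.ker_mk' M, MonoidHom.mem_ker]
      simp only [map_mul, map_inv]
      rw [(hcG a).eq, mul_inv_cancel_right, mul_inv_cancel]
    obtain ⟨L, hLa, hLb, hnL⟩ := pair' hρ hlt hM hl' hl'c ha hb hn
    have hLz : Inv M z L := by
      refine ⟨hLa.fg, hLa.le, ?_⟩
      have := Subgroup.mul_mem _ (Subgroup.inv_mem _ hLa.nrm) hLb.nrm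
      rwa [hbz, inv_mul_cancel_left] at this
    have h1 : a * z * a⁻¹ * z⁻¹ ∈ L := by
      have h2 := Subgroup.inv_mem _ (nrm_conj' hLa.nrm hnL)
      have e : (a⁻¹ * (b * a * b⁻¹ * a⁻¹) * a)⁻¹ = a * z * a⁻¹ * z⁻¹ := by rw [hbz]; group
      rwa [e] at h2
    have h2 : a * z * a⁻¹ * z⁻¹ ∈ NN M z := hLz.le_NN h1
    exact ⟨nrm_of_mem hM h2 (by group), h2⟩
  have hp := key (a := p) (b := q) h.pos (by omega) h.memp h.memq (by rw [hz]; group)
  refine final hS hM hfg hmax h.nmem ?_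
  intro w hw
  have hwp := key (a := w * p) (b := w * q) (l' := l + 1) (by omega) h3
    (by rw [pow_succ']; exact Finset.mul_mem_mul hw h.memp)
    (by rw [pow_succ']; exact Finset.mul_mem_mul hw h.memq) (by rw [hz]; group)
  have hwn : w ∈ normalizer (NN M z : Set G) := by
    have := Subgroup.mul_mem _ hwp.1 (Subgroup.inv_mem _ hp.1)
    rwa [mul_inv_cancel_right] at this
  refine ⟨hwn, ?_⟩
  have h1 := Subgroup.mul_mem _ (Subgroup.inv_mem _ (nrm_conj hwn hp.2)) hwp.2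
  have e : (w * (p * z * p⁻¹ * z⁻¹) * w⁻¹)⁻¹ * (w * p * z * (w * p)⁻¹ * z⁻¹) =
      w * z * w⁻¹ * z⁻¹ := by group
  rwa [e] at h1

theorem main_top [DecidableEq G] {S : Finset G} (hS : closure (S : Set G) = ⊤) {ρ : ℝ}
    (hρ : Tendsto (fun n : ℕ => Real.log ((S ^ n).card : ℝ) / n) atTop (𝓝 ρ)) {c : ℕ}
    (hlt : ρ < Real.log 2 / 3 ^ c) {N : Subgroup G} (hN : N.Normal)
    (hc : (⊤ : Subgroup G).lowerCentralSeries c ≤ N) : N.FG := by
  by_contra hNfg
  obtain ⟨M, hNM, hM, hfg, hmax⟩ := exists_max hN hNfg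
  have htop : M ≠ ⊤ := by
    intro htop
    exact hfg (by rw [htop]; exact ⟨S, hS⟩)
  have hcM : (⊤ : Subgroup G).lowerCentralSeries c ≤ M := hc.trans hNM
  have hc1 : 1 ≤ c := by
    by_contra h0
    have : c = 0 := by omega
    rw [this, Subgroup.lowerCentralSeries_zero] at hcM
    exact htop (top_le_iff.1 hcM)
  by_cases hA : ∀ s ∈ S, ∀ t ∈ S, t * s * t⁻¹ * s⁻¹ ∈ M
  · -- Case A
    obtain ⟨s, hs, hsM⟩ : ∃ s ∈ S, s ∉ M := by
      by_contra hcon
      push Not at hcon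
      apply htop
      rw [← top_le_iff, ← hS, closure_le]
      exact hcon
    refine final hS hM hfg hmax hsM ?_
    intro t ht
    obtain ⟨L, hLs, _, hnL⟩ := pair' hρ hlt hM (l := 1) one_pos (by
      calc 3 * 1 = 3 ^ 1 := by norm_num
        _ ≤ 3 ^ c := Nat.pow_le_pow_right (by norm_num) hc1)
      (a := s) (b := t) (by rwa [pow_one]) (by rwa [pow_one]) (hA s hs t ht)
    have h1 : t * s * t⁻¹ * s⁻¹ ∈ NN M s := hLs.le_NN hnL
    exact ⟨nrm_of_mem hM h1 (by group), h1⟩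
  · -- Case B
    push Not at hA
    obtain ⟨s, hs, t, ht, hst⟩ := hA
    have h1 : ∃ l p q, PairK S M 1 l p q := by
      refine ⟨2, s * t, t * s, ⟨by norm_num, by norm_num, ?_, ?_, ?_, ?_⟩⟩
      · rw [pow_two]; exact Finset.mul_mem_mul hs ht
      · rw [pow_two]; exact Finset.mul_mem_mul ht hs
      · intro h
        apply hst
        have e : t * s * t⁻¹ * s⁻¹ = (t * s) * ((s * t)⁻¹ * (t * s)) * (t * s)⁻¹ := by group
        rw [e]
        exact hM.conj_mem _ h _
      · have h1 := commutator_mem_commutator (H₁ := (⊤ : Subgroup G).lowerCentralSeries 0)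
          (H₂ := (⊤ : Subgroup G)) (mem_top t⁻¹) (mem_top s⁻¹)
        rw [commutatorElement_def] at h1
        have e : (s * t)⁻¹ * (t * s) = t⁻¹ * s⁻¹ * t⁻¹⁻¹ * s⁻¹⁻¹ := by group
        rw [e]
        exact h1
    have hall : ∀ k, 1 ≤ k → k ≤ c → ∃ l p q, PairK S M k l p q := by
      intro k hk1
      induction k, hk1 using Nat.le_induction with
      | base => exact fun _ => h1
      | succ k hk1 ih =>
        intro hkc
        obtain ⟨l, p, q, h⟩ := ih (by omega)
        by_cases hcen : ∀ u ∈ S, Commute (QuotientGroup.mk' M (p⁻¹ * q)) (QuotientGroup.mk' M u)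
        · exact (central_case hS hρ hlt hM hfg hmax hkc h hcen).elim
        · push Not at hcen
          obtain ⟨u, hu, hcu⟩ := hcen
          exact pair_succ hM h hu hcu
    obtain ⟨l, p, q, h⟩ := hall c hc1 le_rfl
    exact h.nmem (hcM h.lcs)

theorem main' {Γ : Type*} [Group Γ] [DecidableEq Γ] (S : Finset Γ) (hne : S.Nonempty)
    (G : Subgroup Γ) (hG : G = Subgroup.closure (S : Set Γ))
    {Q : Type*} [Group Q] (f : G →* Q) (hf : Function.Surjective f)
    (N : Subgroup Q) (hN : N.Normal) (c : ℕ) (hc : (⊤ : Subgroup Q).lowerCentralSeries c ≤ N)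
    (hfg : ¬ N.FG) :
    ∃ ρ : ℝ, Tendsto (fun n : ℕ => Real.log ((S ^ n).card : ℝ) / n) atTop (𝓝 ρ) ∧
      Real.log 2 / 3 ^ c ≤ ρ := by
  classical
  obtain ⟨ρ, hρ⟩ := Pool.Agent.Helper2.Gap.exists_rate S hne
  refine ⟨ρ, hρ, ?_⟩
  have hmem : ∀ s ∈ S, s ∈ G := fun s hs => by
    rw [hG]; exact Subgroup.subset_closure hs
  let S' : Finset G := S.attach.image (fun s => ⟨s.1, hmem s.1 s.2⟩)
  have hmap : S'.image (G.subtype) = S := by
    ext x
    simp only [S', Finset.mem_image, Finset.mem_attach, true_and, Subtype.exists]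
    constructor
    · rintro ⟨a, _, ⟨b, hb, hab⟩, rfl⟩
      have hba : b = a := congrArg Subtype.val hab
      subst hba
      exact hb
    · intro hx
      exact ⟨x, hmem x hx, ⟨x, hx, rfl⟩, rfl⟩
  have hcard : ∀ n, (S' ^ n).card = (S ^ n).card := by
    intro n
    rw [← hmap, ← Finset.image_pow, Finset.card_image_of_injective _ G.subtype_injective]
  have htop : Subgroup.closure (S' : Set G) = ⊤ := by
    apply Subgroup.map_injective G.subtype_injective
    rw [MonoidHom.map_closure, ← Finset.coe_image, hmap, ← MonoidHom.range_eq_map,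
      Subgroup.range_subtype, hG]
  have hne' : S'.Nonempty := by
    obtain ⟨s, hs⟩ := hne
    exact ⟨⟨s, hmem s hs⟩, Finset.mem_image.2 ⟨⟨s, hs⟩, Finset.mem_attach _ _, rfl⟩⟩
  -- the image in the quotient
  have hneT : (S'.image f).Nonempty := hne'.image f
  have htopT : Subgroup.closure ((S'.image f : Finset Q) : Set Q) = ⊤ := by
    rw [Finset.coe_image, ← MonoidHom.map_closure, htop, ← MonoidHom.range_eq_map,
      MonoidHom.range_eq_top.2 hf]
  obtain ⟨σ, hσ⟩ := Pool.Agent.Helper2.Gap.exists_rate (S'.image f) hneT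
  have hle : σ ≤ ρ := by
    refine le_of_tendsto_of_tendsto' hσ hρ ?_
    intro n
    apply div_le_div_of_nonneg_right _ (Nat.cast_nonneg _)
    apply Real.log_le_log
    · exact_mod_cast (hneT.pow (n := n)).card_pos
    · rw [← hcard, ← Finset.image_pow]
      exact_mod_cast Finset.card_image_le
  by_contra hlt
  push Not at hlt
  exact hfg (main_top htopT hσ (hle.trans_lt hlt) hN hc)

theorem main {Γ : Type*} [Group Γ] [DecidableEq Γ] (S : Finset Γ) (hne : S.Nonempty)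
    {Q : Type*} [Group Q] (f : Subgroup.closure (S : Set Γ) →* Q) (hf : Function.Surjective f)
    (N : Subgroup Q) (hN : N.Normal) (c : ℕ) (hc : (⊤ : Subgroup Q).lowerCentralSeries c ≤ N)
    (hfg : ¬ N.FG) :
    ∃ ρ : ℝ, Tendsto (fun n : ℕ => Real.log ((S ^ n).card : ℝ) / n) atTop (𝓝 ρ) ∧
      Real.log 2 / 3 ^ c ≤ ρ :=
  main' S hne _ rfl f hf N hN c hc hfg

end Pool.Agent.Helper11.Gap3
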